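import Mathlib

set_option autoImplicit false

namespace Pool.Agent.Results.MP_d395f7_lc.DegreeDefinable

open FirstOrder Polynomial

noncomputable section

/-- `ℂ[t]` as a structure for the first-order language of rings. -/
instance instRingStructure : Ring.CompatibleRing ℂ[X] := Ring.compatibleRingOfRing ℂ[X]

/-- The parameter set `{t}`. -/
abbrev A : Set ℂ[X] := {X}

def Df {α : Type} (P : (α → ℂ[X]) → Prop) : Prop := A.Definable Language.ring {v | P v}

def Tf {α : Type} (f : (α → ℂ[X]) → ℂ[X]) : Prop := A.DefinableFun Language.ring f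

variable {α : Type}

lemma Df.and {P Q : (α → ℂ[X]) → Prop} (h1 : Df P) (h2 : Df Q) : Df (fun v => P v ∧ Q v) :=
  Set.Definable.inter h1 h2
lemma Df.or {P Q : (α → ℂ[X]) → Prop} (h1 : Df P) (h2 : Df Q) : Df (fun v => P v ∨ Q v) :=
  Set.Definable.union h1 h2
lemma Df.neg {P : (α → ℂ[X]) → Prop} (h1 : Df P) : Df (fun v => ¬ P v) :=
  Set.Definable.compl h1
lemma Df.congr {P Q : (α → ℂ[X]) → Prop} (h1 : Df P) (h : ∀ v, P v ↔ Q v) : Df Q := by
  have : P = Q := funext fun v => propext (h v)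
  rwa [← this]
lemma Df.imp {P Q : (α → ℂ[X]) → Prop} (h1 : Df P) (h2 : Df Q) : Df (fun v => P v → Q v) :=
  (h1.neg.or h2).congr (fun v => by tauto)

lemma Df.ex {P : (α → ℂ[X]) → ℂ[X] → Prop}
    (h : Df (fun w : α ⊕ Unit → ℂ[X] => P (fun a => w (Sum.inl a)) (w (Sum.inr ())))) :
    Df (fun v => ∃ x, P v x) := by
  have h1 := Set.Definable.exists_of_finite h
  refine Df.congr (P := fun v => ∃ u : Unit → ℂ[X], Sum.elim v u ∈
    {w : α ⊕ Unit → ℂ[X] | P (fun a => w (Sum.inl a)) (w (Sum.inr ()))}) h1 ?_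
  intro v
  constructor
  · rintro ⟨u, hu⟩; exact ⟨u (), hu⟩
  · rintro ⟨x, hx⟩; exact ⟨fun _ => x, hx⟩

lemma Df.all {P : (α → ℂ[X]) → ℂ[X] → Prop}
    (h : Df (fun w : α ⊕ Unit → ℂ[X] => P (fun a => w (Sum.inl a)) (w (Sum.inr ())))) :
    Df (fun v => ∀ x, P v x) := by
  have h1 := (Df.ex (P := fun v x => ¬ P v x) h.neg).neg
  exact h1.congr (fun v => by push Not; rfl)

lemma Df.eq {f g : (α → ℂ[X]) → ℂ[X]} (h1 : Tf f) (h2 : Tf g) : Df (fun v => f v = g v) :=
  Set.DefinableFun.ofPred_eq h1 h2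

lemma Tf.proj (i : α) : Tf (fun v : α → ℂ[X] => v i) :=
  Set.DefinableFun.proj Language.ring

lemma Tf.X : Tf (fun _ : α → ℂ[X] => (X : ℂ[X])) :=
  FirstOrder.Language.definableFun_const Language.ring α (Set.mem_singleton _)

lemma Tf.mul {f g : (α → ℂ[X]) → ℂ[X]} (h1 : Tf f) (h2 : Tf g) : Tf (fun v => f v * g v) := by
  have h := Set.DefinableFun.comp (A := A) (L := Language.ring) (g := fun v : α → ℂ[X] => ![f v, g v])
    (f := Language.Structure.funMap Ring.mulFunc) (by
      intro i; fin_cases i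
      · exact h1
      · exact h2) (Set.DefinableFun.of_empty (Set.DefinableFun.fun_symbol _))
  have e : (fun v => f v * g v) = fun v => Language.Structure.funMap Ring.mulFunc ![f v, g v] := by
    funext v
    rw [Ring.CompatibleRing.funMap_mul]; rfl
  rw [Tf, e]
  exact h

lemma Tf.add {f g : (α → ℂ[X]) → ℂ[X]} (h1 : Tf f) (h2 : Tf g) : Tf (fun v => f v + g v) := by
  have h := Set.DefinableFun.comp (A := A) (L := Language.ring) (g := fun v : α → ℂ[X] => ![f v, g v])
    (f := Language.Structure.funMap Ring.addFunc) (by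
      intro i; fin_cases i
      · exact h1
      · exact h2) (Set.DefinableFun.of_empty (Set.DefinableFun.fun_symbol _))
  have e : (fun v => f v + g v) = fun v => Language.Structure.funMap Ring.addFunc ![f v, g v] := by
    funext v
    rw [Ring.CompatibleRing.funMap_add]; rfl
  rw [Tf, e]
  exact h

lemma Tf.zero : Tf (fun _ : α → ℂ[X] => (0 : ℂ[X])) := by
  have h := Set.DefinableFun.comp (A := A) (L := Language.ring) (g := fun v : α → ℂ[X] => (Fin.elim0 : Fin 0 → ℂ[X]))
    (f := Language.Structure.funMap Ring.zeroFunc) (by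
      intro i; exact i.elim0) (Set.DefinableFun.of_empty (Set.DefinableFun.fun_symbol _))
  have e : (fun _ : α → ℂ[X] => (0 : ℂ[X])) = fun v => Language.Structure.funMap Ring.zeroFunc (Fin.elim0 : Fin 0 → ℂ[X]) := by
    funext v
    rw [Ring.CompatibleRing.funMap_zero]
  rw [Tf, e]
  exact h

lemma Tf.one : Tf (fun _ : α → ℂ[X] => (1 : ℂ[X])) := by
  have h := Set.DefinableFun.comp (A := A) (L := Language.ring) (g := fun v : α → ℂ[X] => (Fin.elim0 : Fin 0 → ℂ[X]))
    (f := Language.Structure.funMap Ring.oneFunc) (by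
      intro i; exact i.elim0) (Set.DefinableFun.of_empty (Set.DefinableFun.fun_symbol _))
  have e : (fun _ : α → ℂ[X] => (1 : ℂ[X])) = fun v => Language.Structure.funMap Ring.oneFunc (Fin.elim0 : Fin 0 → ℂ[X]) := by
    funext v
    rw [Ring.CompatibleRing.funMap_one]
  rw [Tf, e]
  exact h

/-! ### The defining conditions -/

/-- `a` is a constant -/
def Con (a : ℂ[X]) : Prop := a = 0 ∨ ∃ b, a * b = 1

/-- `F` is a nonzero polynomial without multiple roots (additive form to avoid subtraction) -/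
def SF (F : ℂ[X]) : Prop := ∀ a, Con a → ¬ ∃ l w, l + a = X ∧ F = l * l * w

/-- the constant `a` is a root of `F` -/
def Rt (F a : ℂ[X]) : Prop := Con a ∧ ∃ l w, l + a = X ∧ F = l * w

/-- `h(a) = b` for constants `a`, `b` -/
def Val (h a b : ℂ[X]) : Prop := ∃ l w, l + a = X ∧ h = l * w + b

/-- `h` restricts to a bijection from the roots of `F` to the roots of `G` -/
def Bij (h F G : ℂ[X]) : Prop :=
  (∀ a, Rt F a → ∃ b, Rt G b ∧ Val h a b) ∧ (∀ b, Rt G b → ∃ a, Rt F a ∧ Val h a b) ∧
  (∀ a a', Rt F a ∧ Rt F a' ∧ (∃ b, Con b ∧ Val h a b ∧ Val h a' b) → a = a')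

/-- the first-order condition -/
def Cond (f g : ℂ[X]) : Prop :=
  (f = 0 ∧ g = 0) ∨ (¬ f = 0 ∧ ¬ g = 0 ∧ ∃ c d F G h, Con c ∧ Con d ∧ f = F + c ∧ g = G + d ∧
    ¬ F = 0 ∧ ¬ G = 0 ∧ SF F ∧ SF G ∧ Bij h F G)

lemma Df.con (i : α) : Df (fun v => Con (v i)) := by
  unfold Con
  repeat'
    (first
      | exact Tf.X
      | exact Tf.zero
      | exact Tf.one
      | apply Tf.proj
      | apply Tf.mul
      | apply Tf.add
      | apply Df.eq
      | apply Df.and
      | apply Df.or
      | apply Df.neg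
      | apply Df.imp
      | apply Df.ex
      | apply Df.all)

lemma Df.sf (i : α) : Df (fun v => SF (v i)) := by
  unfold SF Con
  repeat'
    (first
      | exact Tf.X
      | exact Tf.zero
      | exact Tf.one
      | apply Tf.proj
      | apply Tf.mul
      | apply Tf.add
      | apply Df.eq
      | apply Df.and
      | apply Df.or
      | apply Df.neg
      | apply Df.imp
      | apply Df.ex
      | apply Df.all)

lemma Df.bij (i j k : α) : Df (fun v => Bij (v i) (v j) (v k)) := by
  unfold Bij Rt Val Con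
  repeat'
    (first
      | exact Tf.X
      | exact Tf.zero
      | exact Tf.one
      | apply Tf.proj
      | apply Tf.mul
      | apply Tf.add
      | apply Df.eq
      | apply Df.and
      | apply Df.or
      | apply Df.neg
      | apply Df.imp
      | apply Df.ex
      | apply Df.all)

lemma Df.cond (i j : α) : Df (fun v => Cond (v i) (v j)) := by
  unfold Cond
  repeat'
    (first
      | apply Df.con
      | apply Df.sf
      | apply Df.bij
      | exact Tf.X
      | exact Tf.zero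
      | exact Tf.one
      | apply Tf.proj
      | apply Tf.mul
      | apply Tf.add
      | apply Df.eq
      | apply Df.and
      | apply Df.or
      | apply Df.neg
      | apply Df.imp
      | apply Df.ex)

/-! ### Correctness -/

lemma con_iff {a : ℂ[X]} : Con a ↔ ∃ c : ℂ, a = C c := by
  constructor
  · rintro (rfl | ⟨b, hb⟩)
    · exact ⟨0, by simp⟩
    · obtain ⟨c, -, hc⟩ := Polynomial.isUnit_iff.1 (IsUnit.of_mul_eq_one _ hb)
      exact ⟨c, hc.symm⟩
  · rintro ⟨c, rfl⟩
    by_cases hc : c = 0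
    · left; rw [hc, C_0]
    · right
      exact ⟨C c⁻¹, by rw [← C_mul, mul_inv_cancel₀ hc, C_1]⟩

lemma con_C (c : ℂ) : Con (C c) := con_iff.2 ⟨c, rfl⟩

lemma sf_iff {F : ℂ[X]} (hF : F ≠ 0) : SF F ↔ F.roots.Nodup := by
  rw [Multiset.nodup_iff_count_le_one]
  constructor
  · intro h c
    rw [count_roots]
    by_contra hc
    push Not at hc
    have h2 : (X - C c) ^ 2 ∣ F := (le_rootMultiplicity_iff hF).1 hc
    obtain ⟨w, hw⟩ := h2
    exact h (C c) (con_C c) ⟨X - C c, w, by ring, by rw [hw]; ring⟩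
  · rintro h a ha ⟨l, w, hl, hF'⟩
    obtain ⟨c, rfl⟩ := con_iff.1 ha
    have hl' : l = X - C c := eq_sub_of_add_eq hl
    have h2 : (X - C c) ^ 2 ∣ F := ⟨w, by rw [hF', hl']; ring⟩
    have h3 := (le_rootMultiplicity_iff hF).2 h2
    have h4 := h c
    rw [count_roots] at h4
    omega

lemma rt_iff {F a : ℂ[X]} : Rt F a ↔ ∃ c : ℂ, a = C c ∧ F.IsRoot c := by
  constructor
  · rintro ⟨ha, l, w, hl, hF⟩
    obtain ⟨c, rfl⟩ := con_iff.1 ha
    refine ⟨c, rfl, ?_⟩
    have hl' : l = X - C c := eq_sub_of_add_eq hl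
    rw [IsRoot.def, hF, hl']; simp
  · rintro ⟨c, rfl, h⟩
    obtain ⟨w, hw⟩ := dvd_iff_isRoot.2 h
    exact ⟨con_C c, X - C c, w, by ring, hw⟩

lemma val_iff {h : ℂ[X]} {a b : ℂ} : Val h (C a) (C b) ↔ h.eval a = b := by
  constructor
  · rintro ⟨l, w, hl, hh⟩
    have hl' : l = X - C a := eq_sub_of_add_eq hl
    rw [hh, hl']; simp
  · intro hh
    have h1 : (h - C b).IsRoot a := by rw [IsRoot.def]; simp [hh]
    obtain ⟨w, hw⟩ := dvd_iff_isRoot.2 h1
    exact ⟨X - C a, w, by ring, by rw [← hw]; ring⟩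

lemma card_eq {F : ℂ[X]} (hF : F ≠ 0) (h : SF F) : F.roots.toFinset.card = F.natDegree := by
  rw [Multiset.toFinset_card_of_nodup ((sf_iff hF).1 h)]
  exact (IsAlgClosed.splits F).natDegree_eq_card_roots.symm

lemma bij_card {h F G : ℂ[X]} (hF : F ≠ 0) (hG : G ≠ 0) (hb : Bij h F G) :
    F.roots.toFinset.card = G.roots.toFinset.card := by
  obtain ⟨h1, h2, h3⟩ := hb
  apply Finset.card_bij (fun a _ => h.eval a)
  · intro a ha
    rw [Multiset.mem_toFinset, mem_roots hF] at ha
    obtain ⟨b, hb, hv⟩ := h1 (C a) (rt_iff.2 ⟨a, rfl, ha⟩)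
    obtain ⟨c, rfl, hc⟩ := rt_iff.1 hb
    rw [Multiset.mem_toFinset, mem_roots hG, val_iff.1 hv]
    exact hc
  · intro a ha a' ha' he
    rw [Multiset.mem_toFinset, mem_roots hF] at ha ha'
    have := h3 (C a) (C a') ⟨rt_iff.2 ⟨a, rfl, ha⟩, rt_iff.2 ⟨a', rfl, ha'⟩, C (h.eval a), con_C _,
      val_iff.2 rfl, val_iff.2 he.symm⟩
    exact C_injective this
  · intro b hb
    rw [Multiset.mem_toFinset, mem_roots hG] at hb
    obtain ⟨a, ha, hv⟩ := h2 (C b) (rt_iff.2 ⟨b, rfl, hb⟩)
    obtain ⟨c, rfl, hc⟩ := rt_iff.1 ha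
    exact ⟨c, by rw [Multiset.mem_toFinset, mem_roots hF]; exact hc, val_iff.1 hv⟩

lemma exists_shift {f : ℂ[X]} (hf : f ≠ 0) : ∃ c : ℂ, f - C c ≠ 0 ∧ SF (f - C c) := by
  by_cases hd : f.natDegree = 0
  · refine ⟨0, by simpa using hf, ?_⟩
    rw [C_0, sub_zero, sf_iff hf]
    have : f.roots = 0 := by
      rw [eq_C_of_natDegree_eq_zero hd]; exact roots_C _
    rw [this]; exact Multiset.nodup_zero
  · have hder : derivative f ≠ 0 := by
      intro h0
      exact hd (derivative_eq_zero.1 h0)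
    obtain ⟨c, hc⟩ := Infinite.exists_notMem_finset ((derivative f).roots.toFinset.image (fun a => f.eval a))
    have hne : f - C c ≠ 0 := by
      intro h0
      apply hd
      rw [sub_eq_zero.1 h0, natDegree_C]
    refine ⟨c, hne, ?_⟩
    rintro a ha ⟨l, w, hl, hF⟩
    obtain ⟨x, rfl⟩ := con_iff.1 ha
    have hl' : l = X - C x := eq_sub_of_add_eq hl
    apply hc
    rw [Finset.mem_image]
    refine ⟨x, ?_, ?_⟩
    · rw [Multiset.mem_toFinset, mem_roots hder, IsRoot.def]
      have h1 : derivative f = derivative (f - C c) := by simp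
      rw [h1, hF, hl']
      simp
    · have h2 := congrArg (eval x) hF
      rw [hl'] at h2
      simp at h2
      exact sub_eq_zero.1 h2

theorem cond_iff (f g : ℂ[X]) : Cond f g ↔ f.degree = g.degree := by
  classical
  constructor
  · rintro (⟨rfl, rfl⟩ | ⟨hf, hg, c, d, F, G, h, hc, hd, hfF, hgG, hF, hG, sF, sG, hb⟩)
    · rfl
    · obtain ⟨c, rfl⟩ := con_iff.1 hc
      obtain ⟨d, rfl⟩ := con_iff.1 hd
      have h1 := bij_card hF hG hb
      rw [card_eq hF sF, card_eq hG sG] at h1
      rw [degree_eq_natDegree hf, degree_eq_natDegree hg, hfF, hgG, natDegree_add_C, natDegree_add_C, h1]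
  · intro hdeg
    by_cases hf : f = 0
    · left
      refine ⟨hf, ?_⟩
      rw [hf, degree_zero] at hdeg
      exact degree_eq_bot.1 hdeg.symm
    · have hg : g ≠ 0 := by
        intro h0
        rw [h0, degree_zero, degree_eq_bot] at hdeg
        exact hf hdeg
      right
      obtain ⟨c, hF, sF⟩ := exists_shift hf
      obtain ⟨d, hG, sG⟩ := exists_shift hg
      have hcard : (f - C c).roots.toFinset.card = (g - C d).roots.toFinset.card := by
        rw [card_eq hF sF, card_eq hG sG, natDegree_sub_C, natDegree_sub_C]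
        exact natDegree_eq_of_degree_eq hdeg
      set SF' := (f - C c).roots.toFinset with hSF
      set SG' := (g - C d).roots.toFinset with hSG
      let e : SF' ≃ SG' := Finset.equivOfCardEq hcard
      let r : ℂ → ℂ := fun a => if ha : a ∈ SF' then (e ⟨a, ha⟩ : ℂ) else 0
      let h : ℂ[X] := Lagrange.interpolate SF' id r
      have hval : ∀ a (ha : a ∈ SF'), h.eval a = (e ⟨a, ha⟩ : ℂ) := by
        intro a ha
        have := Lagrange.eval_interpolate_at_node (s := SF') (v := id) r (Function.injective_id.injOn) ha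
        simp only [id] at this
        show eval a (Lagrange.interpolate SF' id r) = _
        rw [this]
        exact dif_pos ha
      refine ⟨hf, hg, C c, C d, f - C c, g - C d, h, con_C c, con_C d, by ring, by ring, hF, hG, sF, sG,
        ?_, ?_, ?_⟩
      · intro a ha
        obtain ⟨x, rfl, hx⟩ := rt_iff.1 ha
        have hxS : x ∈ SF' := by rw [hSF, Multiset.mem_toFinset, mem_roots hF]; exact hx
        refine ⟨C (e ⟨x, hxS⟩ : ℂ), rt_iff.2 ⟨_, rfl, ?_⟩, val_iff.2 (hval x hxS)⟩
        have := (e ⟨x, hxS⟩).2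
        exact (mem_roots hG).1 (Multiset.mem_toFinset.1 this)
      · intro b hb
        obtain ⟨y, rfl, hy⟩ := rt_iff.1 hb
        have hyS : y ∈ SG' := by rw [hSG, Multiset.mem_toFinset, mem_roots hG]; exact hy
        obtain ⟨⟨x, hx⟩, hxy⟩ := e.surjective ⟨y, hyS⟩
        refine ⟨C x, rt_iff.2 ⟨x, rfl, ?_⟩, val_iff.2 ?_⟩
        · exact (mem_roots hF).1 (Multiset.mem_toFinset.1 hx)
        · rw [hval x hx, hxy]
      · rintro a a' ⟨ha, ha', b, hb, hv, hv'⟩
        obtain ⟨x, rfl, hx⟩ := rt_iff.1 ha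
        obtain ⟨x', rfl, hx'⟩ := rt_iff.1 ha'
        obtain ⟨y, rfl⟩ := con_iff.1 hb
        have hxS : x ∈ SF' := by rw [hSF, Multiset.mem_toFinset, mem_roots hF]; exact hx
        have hxS' : x' ∈ SF' := by rw [hSF, Multiset.mem_toFinset, mem_roots hF]; exact hx'
        have e1 := val_iff.1 hv
        have e2 := val_iff.1 hv'
        rw [hval x hxS] at e1
        rw [hval x' hxS'] at e2
        have e3 : e ⟨x, hxS⟩ = e ⟨x', hxS'⟩ := Subtype.ext (e1.trans e2.symm)
        have e4 := e.injective e3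
        rw [Subtype.mk.injEq] at e4
        rw [e4]

/-- **The equal-degree relation is first-order definable in `ℂ[t]`**, with `t` as only parameter
(`ℂ[t]` is viewed as a structure in the language of rings through its own ring operations;
`degree 0 = ⊥ = -∞`). -/
theorem result : ({X} : Set ℂ[X]).Definable Language.ring
    {v : Fin 2 → ℂ[X] | (v 0).degree = (v 1).degree} := by
  have h : Df (fun v : Fin 2 → ℂ[X] => (v 0).degree = (v 1).degree) :=
    (Df.cond 0 1).congr (fun v => cond_iff (v 0) (v 1))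
  exact h

end

end Pool.Agent.Results.MP_d395f7_lc.DegreeDefinable
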